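import Pool.Agent.Lib.Pc0b458I.GenW

/-!
# Real classes as combinations of rational classes with independent coefficients

`exists_indep`: an element of the real span of a rational vector space is a combination of elements
of this space with coefficients which are linearly independent over the rational numbers; so it
satisfies a rational linear equation only if all these elements do. `quad_nonneg`: a quadratic form
which is nonnegative on rational vectors is nonnegative.
-/

open Finset ComplexConjugate

namespace Pc0b458V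

theorem exists_indep {M : Type*} [AddCommGroup M] [Module ℝ M] (V : Set M) (h0 : (0 : M) ∈ V)
    (hadd : ∀ x ∈ V, ∀ y ∈ V, x + y ∈ V) (hsmul : ∀ (q : ℚ), ∀ x ∈ V, (q : ℝ) • x ∈ V) {z : M}
    (hz : z ∈ Submodule.span ℝ V) :
    ∃ (d : ℕ) (b : Fin d → ℝ) (y : Fin d → M), LinearIndependent ℚ b ∧ (∀ i, y i ∈ V) ∧
      z = ∑ i, b i • y i := by
  obtain ⟨n, f, v, hv⟩ := Submodule.mem_span_set'.1 hz
  set S : Submodule ℚ ℝ := Submodule.span ℚ (Set.range f) with hS
  have hfin : FiniteDimensional ℚ S := FiniteDimensional.span_of_finite ℚ (Set.finite_range f)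
  set b := Module.finBasis ℚ S with hb
  have hf : ∀ i, f i ∈ S := fun i => Submodule.subset_span ⟨i, rfl⟩
  refine ⟨Module.finrank ℚ S, fun j => (b j : ℝ),
    fun j => ∑ i, ((b.repr ⟨f i, hf i⟩ j : ℚ) : ℝ) • (v i : M), ?_, ?_, ?_⟩
  · exact b.linearIndependent.map' S.subtype (Submodule.ker_subtype S)
  · intro j
    have : ∀ s : Finset (Fin n), ∑ i ∈ s, ((b.repr ⟨f i, hf i⟩ j : ℚ) : ℝ) • (v i : M) ∈ V := by
      intro s
      induction s using Finset.induction_on with
      | empty => simpa using h0
      | insert a s ha ih =>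
        rw [Finset.sum_insert ha]
        exact hadd _ (hsmul _ _ (v a).2) _ ih
    exact this univ
  · rw [← hv]
    have e : ∀ i, f i = ∑ j, (b j : ℝ) * ((b.repr ⟨f i, hf i⟩ j : ℚ) : ℝ) := by
      intro i
      have h1 := b.sum_repr ⟨f i, hf i⟩
      have h2 := congrArg (fun x : S => (x : ℝ)) h1
      simp only [Submodule.coe_sum, Submodule.coe_smul] at h2
      refine h2.symm.trans (Finset.sum_congr rfl fun j _ => ?_)
      rw [Rat.smul_def, mul_comm]
    have e2 : ∀ i, f i • (v i : M) =
        ∑ j, (b j : ℝ) • (((b.repr ⟨f i, hf i⟩ j : ℚ) : ℝ) • (v i : M)) := by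
      intro i
      conv_lhs => rw [e i]
      rw [Finset.sum_smul]
      exact Finset.sum_congr rfl fun j _ => mul_smul _ _ _
    rw [Finset.sum_congr rfl fun i _ => e2 i, Finset.sum_comm]
    exact Finset.sum_congr rfl fun j _ => (Finset.smul_sum).symm

/-- rational relations with independent coefficients are trivial -/
theorem indep_zero {d : ℕ} {b : Fin d → ℝ} (hb : LinearIndependent ℚ b) {q : Fin d → ℚ}
    (h : ∑ i, b i * (q i : ℝ) = 0) (i : Fin d) : q i = 0 := by
  refine Fintype.linearIndependent_iff.1 hb q ?_ i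
  rw [← h]
  exact Finset.sum_congr rfl fun j _ => by rw [Rat.smul_def, mul_comm]

theorem quad_nonneg {d : ℕ} (B : Fin d → Fin d → ℝ)
    (h : ∀ t : Fin d → ℚ, 0 ≤ ∑ i, ∑ j, (t i : ℝ) * (t j : ℝ) * B i j) (t : Fin d → ℝ) :
    0 ≤ ∑ i, ∑ j, t i * t j * B i j := by
  have hc : IsClosed {t : Fin d → ℝ | 0 ≤ ∑ i, ∑ j, t i * t j * B i j} := by
    apply isClosed_le continuous_const
    refine continuous_finsetSum _ fun i _ => continuous_finsetSum _ fun j _ => ?_
    exact ((continuous_apply i).mul (continuous_apply j)).mul continuous_const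
  have hd : Dense (Set.pi Set.univ fun _ : Fin d => Set.range ((↑) : ℚ → ℝ)) :=
    dense_pi _ fun i _ => Rat.denseRange_cast
  have h1 : (Set.pi Set.univ fun _ : Fin d => Set.range ((↑) : ℚ → ℝ)) ⊆
      {t : Fin d → ℝ | 0 ≤ ∑ i, ∑ j, t i * t j * B i j} := by
    intro t ht
    choose q hq using fun i => ht i (Set.mem_univ i)
    have h3 := h q
    show 0 ≤ ∑ i, ∑ j, t i * t j * B i j
    simpa only [hq] using h3
  have h2 := closure_minimal h1 hc
  rw [hd.closure_eq] at h2
  exact h2 (Set.mem_univ t)

end Pc0b458V
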