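import Pool.Agent.Lib.Pc0b458I.NumEq

/-!
# Pull-back to a product

`prV ι`: the pull-back of cohomology classes of `A` under the projection from a product with `A`; `ι`
embeds the coordinates of the CM algebra of `A` in those of the product.
-/

open Finset ComplexConjugate

namespace Pc0b458V

theorem prod_filter_one {α R : Type*} [Monoid R] (p : α → Prop) [DecidablePred p] (a : α → R) :
    ∀ l : List α, (∀ x ∈ l, ¬ p x → a x = 1) →
      (l.map a).prod = ((l.filter (fun x => decide (p x))).map a).prod := by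
  intro l
  induction l with
  | nil => simp
  | cons x l ih =>
    intro h
    have ih' := ih fun y hy hp => h y (List.mem_cons_of_mem _ hy) hp
    by_cases hx : p x
    · rw [List.filter_cons_of_pos (by simpa using hx), List.map_cons, List.map_cons,
        List.prod_cons, List.prod_cons, ih']
    · rw [List.filter_cons_of_neg (by simpa using hx), List.map_cons, List.prod_cons,
        h x List.mem_cons_self hx, one_mul, ih']

section

variable {g g' : ℕ} (ι : Fin g ↪o Fin g')

theorem filter_finRange :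
    (List.finRange g').filter (fun s => decide (∃ t, ι t = s)) = (List.finRange g).map ι := by
  apply List.Perm.eq_of_pairwise (le := (· < ·))
  · intro a b _ _ h1 h2
    exact absurd (h1.trans h2) (lt_irrefl _)
  · exact (List.pairwise_lt_finRange g').filter _
  · rw [List.pairwise_map]
    refine (List.pairwise_lt_finRange g).imp ?_
    intro a b h
    exact ι.strictMono h
  · rw [List.perm_ext_iff_of_nodup]
    · intro s
      simp only [List.mem_filter, List.mem_finRange, true_and, List.mem_map, decide_eq_true_eq]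
    · exact (List.nodup_finRange g').filter _
    · exact (List.nodup_finRange g).map ι.injective

theorem lprod_emb {R : Type*} [Monoid R] (a : Fin g' → R) (h : ∀ s, (¬ ∃ t, ι t = s) → a s = 1) :
    lprod a = lprod fun t => a (ι t) := by
  unfold lprod
  rw [List.ofFn_eq_map, List.ofFn_eq_map, prod_filter_one (fun s => ∃ t, ι t = s) a _
    (fun x _ hx => h x hx), filter_finRange, List.map_map]
  rfl

/-- pull-back on the first cohomology -/
noncomputable def prOne : (Fin g × Bool × Fin 1 → ℂ) →ₗ[ℂ] (Fin g' × Bool × Fin 1 → ℂ) :=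
  ∑ i : Fin g × Bool × Fin 1, (LinearMap.proj i).smulRight (Pi.single (ι i.1, i.2) (1 : ℂ))

theorem prOne_single (i : Fin g × Bool × Fin 1) :
    prOne ι (Pi.single i 1) = Pi.single (ι i.1, i.2) 1 := by
  rw [prOne, LinearMap.sum_apply, Finset.sum_eq_single i]
  · simp
  · intro j _ hj
    simp [Pi.single_eq_of_ne hj]
  · intro h
    exact absurd (mem_univ i) h

/-- pull-back on the cohomology ring -/
noncomputable def prV : Coh g 1 →ₐ[ℂ] Coh g' 1 := ExteriorAlgebra.map (prOne ι)

theorem prV_gen (s : Fin g) (b : Bool) : prV ι (gen s b 0) = gen (ι s) b 0 := by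
  have h : prV ι (iota g 1 (Pi.single (s, b, 0) 1)) = iota g' 1 (prOne ι (Pi.single (s, b, 0) 1)) :=
    ExteriorAlgebra.map_apply_ι _ _
  rw [prOne_single] at h
  exact h

/-- extension of a weight by zero -/
noncomputable def ext (η : Fin g → ℤ) : Fin g' → ℤ := Function.extend ι η 0

theorem ext_emb (η : Fin g → ℤ) (s : Fin g) : ext ι η (ι s) = η s := by
  rw [ext, ι.injective.extend_apply]

theorem ext_out (η : Fin g → ℤ) {s : Fin g'} (h : ¬ ∃ t, ι t = s) : ext ι η s = 0 := by
  rw [ext, Function.extend_apply' _ _ _ h]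
  rfl

theorem ext_cases {η : Fin g → ℤ} (hη : ∀ s, η s = -1 ∨ η s = 0 ∨ η s = 1) :
    ∀ s, ext ι η s = -1 ∨ ext ι η s = 0 ∨ ext ι η s = 1 := by
  intro s
  by_cases h : ∃ t, ι t = s
  · obtain ⟨t, rfl⟩ := h
    rw [ext_emb]
    exact hη t
  · rw [ext_out ι η h]
    exact Or.inr (Or.inl rfl)

theorem ext_neg (η : Fin g → ℤ) : ext ι (-η) = -ext ι η := by
  funext s
  by_cases h : ∃ t, ι t = s
  · obtain ⟨t, rfl⟩ := h
    rw [ext_emb, Pi.neg_apply, Pi.neg_apply, ext_emb]
  · rw [Pi.neg_apply, ext_out ι _ h, ext_out ι _ h, neg_zero]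

theorem ext_inj {η θ : Fin g → ℤ} (h : ext ι η = ext ι θ) : η = θ := by
  funext s
  have := congrFun h (ι s)
  rwa [ext_emb, ext_emb] at this

theorem ext_zero : ext ι (0 : Fin g → ℤ) = 0 := by
  funext s
  by_cases h : ∃ t, ι t = s
  · obtain ⟨t, rfl⟩ := h
    rw [ext_emb]
    rfl
  · rw [ext_out ι _ h]
    rfl

theorem size_ext (η : Fin g → ℤ) : size (ext ι η) = size η := by
  rw [size, size, ← Finset.sum_subset (Finset.subset_univ (univ.map ι.toEmbedding)), Finset.sum_map]
  · refine Finset.sum_congr rfl fun s _ => ?_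
    have : ext ι η (ι.toEmbedding s) = η s := ext_emb ι η s
    rw [this]
  · intro s _ hs
    rw [ext_out ι η, Int.natAbs_zero]
    rintro ⟨t, rfl⟩
    exact hs (Finset.mem_map_of_mem ι.toEmbedding (mem_univ t))

theorem sg_ext (η : Fin g → ℤ) : sg (ext ι η) = sg η := by
  have h : supp (ext ι η) = (supp η).map ι.toEmbedding := by
    ext s
    rw [supp, mem_filter, Finset.mem_map]
    constructor
    · rintro ⟨-, hs⟩
      by_cases h : ∃ t, ι t = s
      · obtain ⟨t, rfl⟩ := h
        rw [ext_emb] at hs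
        exact ⟨t, by rw [supp, mem_filter]; exact ⟨mem_univ _, hs⟩, rfl⟩
      · exact absurd (ext_out ι η h) hs
    · rintro ⟨t, ht, rfl⟩
      rw [supp, mem_filter] at ht
      have : ext ι η (ι.toEmbedding t) = η t := ext_emb ι η t
      rw [this]
      exact ⟨mem_univ _, ht.2⟩
  rw [sg, h, Finset.prod_map, sg]
  exact Finset.prod_congr rfl fun s _ => ext_emb ι η s

theorem prV_mo (η : Fin g → ℤ) (T : Finset (Fin g)) :
    prV ι (mo η T) = mo (ext ι η) (T.map ι.toEmbedding) := by
  rw [mo, map_lprod, mo, lprod_emb ι]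
  · congr 1
    funext s
    have hm : ι s ∈ T.map ι.toEmbedding ↔ s ∈ T := by
      rw [Finset.mem_map]
      constructor
      · rintro ⟨t, ht, hts⟩
        rwa [← ι.injective hts]
      · intro hs
        exact ⟨s, hs, rfl⟩
    simp only [lt, hm, ext_emb]
    split_ifs
    · rw [dd, map_mul, prV_gen, prV_gen, dd]
    · exact prV_gen ι s true
    · exact prV_gen ι s false
    · exact map_one _
  · intro s hs
    have h1 : s ∉ T.map ι.toEmbedding := by
      rw [Finset.mem_map]
      rintro ⟨t, -, ht⟩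
      exact hs ⟨t, ht⟩
    simp [lt, h1, ext_out ι η hs]

theorem mem_idx_ext {d : ℕ} {η : Fin g → ℤ} {T : Finset (Fin g)} (h : (η, T) ∈ idx g d) :
    (ext ι η, T.map ι.toEmbedding) ∈ idx g' d := by
  obtain ⟨h1, h2, h3⟩ := mem_idx.1 h
  refine mem_idx.2 ⟨ext_cases ι h1, ?_, by rw [size_ext, Finset.card_map]; exact h3⟩
  intro s hs
  obtain ⟨t, ht, rfl⟩ := Finset.mem_map.1 hs
  have : ext ι η (ι.toEmbedding t) = η t := ext_emb ι η t
  rw [this]
  exact h2 t ht

end

namespace CMAb

variable {A A' : CMAb} (ι : Fin A.g ↪o Fin A'.g)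

section

variable (h : ∀ i, ∀ x ∈ A.alg i, prV ι x ∈ A'.R1 i)

include h

theorem prV_R1 {i : ℕ} {x : Coh A.g 1} (hx : x ∈ A.R1 i) : prV ι x ∈ A'.R1 i := by
  have h1 : x ∈ Submodule.span ℝ (A.alg i) := R1_span hx
  clear hx
  induction h1 using Submodule.span_induction with
  | mem x hx => exact h i x hx
  | zero => rw [map_zero]; exact (A'.R1 i).zero_mem
  | add x y _ _ hx hy => rw [map_add]; exact (A'.R1 i).add_mem hx hy
  | smul r x _ hx => rw [real_smul, map_smul]; exact R1_smul r hx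

theorem P_ext {η : Fin A.g → ℤ} {a a' : ℂ} (hP : A.P η a a') : A'.P (ext ι η) a a' := by
  obtain ⟨k, hk, hm⟩ := hP
  refine ⟨k, by rw [size_ext]; exact hk, ?_⟩
  have := prV_R1 ι h hm
  rw [map_add, map_smul, map_smul, prV_mo, prV_mo, ext_neg, Finset.map_empty] at this
  exact this

theorem nonNull_ext {η : Fin A.g → ℤ} (hN : A.NonNull η) : A'.NonNull (ext ι η) := by
  obtain ⟨a, a', hP, ha⟩ := hN
  exact ⟨a, a', P_ext ι h hP, ha⟩

theorem good_ext {η : Fin A.g → ℤ} (hη : ∀ s, η s = -1 ∨ η s = 0 ∨ η s = 1) (h0 : η ≠ 0)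
    (hN : A.NonNull η) (hG : A'.Good (ext ι η)) : A.Good η := by
  obtain ⟨a, a', hP, ha⟩ := hN
  obtain ⟨r, hr, he⟩ := hG.pos (ext_cases ι hη) (fun h1 => h0 (ext_inj ι (by rw [h1, ext_zero])))
    (P_ext ι h hP)
  rw [sg_ext] at he
  refine ⟨a, a', hP, r, lt_of_le_of_ne hr ?_, he⟩
  intro h1
  rw [← h1, Complex.ofReal_zero, mul_assoc] at he
  rcases mul_eq_zero.1 he with h2 | h2
  · exact sg_ne hη h2
  · exact ha h2

end

/-- the coefficients of a pull-back -/
theorem co_ext {n : ℕ} {w : Coh A.g 1} (hw : w ∈ A.R1 n) {η : Fin A.g → ℤ}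
    {T : Finset (Fin A.g)} (hT : (η, T) ∈ idx A.g (2 * n)) (hne : A.co w η T ≠ 0) :
    A'.co (prV ι w) (ext ι η) (T.map ι.toEmbedding) ≠ 0 := by
  obtain ⟨c, hc⟩ := rep (R1_gr hw)
  set φ : (Fin A.g → ℤ) × Finset (Fin A.g) → (Fin A'.g → ℤ) × Finset (Fin A'.g) :=
    fun p => (ext ι p.1, p.2.map ι.toEmbedding) with hφ
  have hinj : ∀ p q, φ p = φ q → p = q := by
    intro p q hpq
    obtain ⟨h1, h2⟩ := Prod.mk.inj hpq
    exact Prod.ext (ext_inj ι h1) (Finset.map_injective _ h2)
  set c' : (Fin A'.g → ℤ) × Finset (Fin A'.g) → ℂ :=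
    fun q => ∑ p ∈ idx A.g (2 * n), if φ p = q then c p else 0 with hc'
  have hrep : prV ι w = ∑ q ∈ idx A'.g (2 * n), c' q • mo q.1 q.2 := by
    conv_lhs => rw [hc]
    rw [map_sum]
    simp only [hc', Finset.sum_smul]
    rw [Finset.sum_comm]
    refine Finset.sum_congr rfl fun p hp => ?_
    rw [map_smul, prV_mo, Finset.sum_eq_single (φ p)]
    · rw [if_pos rfl]
    · intro q _ hq
      rw [if_neg (fun h => hq h.symm), zero_smul]
    · intro hcon
      exact absurd (mem_idx_ext ι hp) hcon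
  intro h0
  rw [A'.co_eq_zero hrep (mem_idx_ext ι hT)] at h0
  apply hne
  rw [A.co_eq_zero hc hT]
  simp only [hc'] at h0
  rw [Finset.sum_eq_single (η, T)] at h0
  · rwa [if_pos rfl] at h0
  · intro p _ hp
    rw [if_neg]
    intro hcon
    exact hp (hinj _ _ hcon)
  · intro hcon
    exact absurd hT hcon

end CMAb

end Pc0b458V
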