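import Pool.Agent.Lib.Pc0b458G.Pos

/-!
# Classes all whose weights are sums of weights of a given kind

`GenW W`: the sums of weights in `W`. `GenCW W n z`: the class `z` is a real algebraic class and all
its weights which carry a class which is not isotropic are in `GenW W`. This is stable under sums,
products and primitive components.
-/

open Finset ComplexConjugate

namespace Pc0b458V

namespace CMAb

variable (A : CMAb)

/-- the weights which are sums of weights in `W` -/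
inductive GenW (W : (Fin A.g → ℤ) → Prop) : (Fin A.g → ℤ) → Prop
  | base (η : Fin A.g → ℤ) (h : W η) : GenW W η
  | add (η θ : Fin A.g → ℤ) (hη : GenW W η) (hθ : GenW W θ)
      (h : ∀ s, |η s + θ s| ≤ 1) : GenW W (η + θ)

/-- the weights of `z` are sums of weights in `W` -/
def GenCW (W : (Fin A.g → ℤ) → Prop) (n : ℕ) (z : Coh A.g 1) : Prop :=
  z ∈ A.R1 n ∧ ∀ η T, (η, T) ∈ idx A.g (2 * n) → A.co z η T ≠ 0 → (η = 0 ∨ A.NonNull η) →
    A.GenW W η

/-- the algebraic weights of size less than `2 m` -/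
def Small (m : ℕ) (η : Fin A.g → ℤ) : Prop :=
  (∀ s, η s = -1 ∨ η s = 0 ∨ η s = 1) ∧ size η < 2 * m ∧ (η = 0 ∨ A.NonNull η)

variable {A} {W : (Fin A.g → ℤ) → Prop}

theorem genW_good (hW : ∀ η, W η → (∀ s, η s = -1 ∨ η s = 0 ∨ η s = 1) ∧ A.Good η)
    {η : Fin A.g → ℤ} (h : A.GenW W η) :
    (∀ s, η s = -1 ∨ η s = 0 ∨ η s = 1) ∧ A.Good η := by
  induction h with
  | base η h => exact hW η h
  | add η θ _ _ h ih1 ih2 =>
    have h' : ∀ s, η s + θ s = -1 ∨ η s + θ s = 0 ∨ η s + θ s = 1 := fun s => cases_of_abs (h s)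
    exact ⟨h', good_add ih1.1 ih2.1 h' ih1.2 ih2.2⟩

theorem genW_neg (hW : ∀ η, W η → W (-η)) {η : Fin A.g → ℤ} (h : A.GenW W η) : A.GenW W (-η) := by
  induction h with
  | base η h => exact GenW.base _ (hW η h)
  | add η θ _ _ h ih1 ih2 =>
    rw [neg_add]
    refine GenW.add _ _ ih1 ih2 fun s => ?_
    have := h s
    rw [Pi.neg_apply, Pi.neg_apply, ← neg_add, abs_neg]
    exact this

theorem genW_of_neg (hW : ∀ η, W η → W (-η)) {η : Fin A.g → ℤ} (h : A.GenW W (-η)) :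
    A.GenW W η := by
  have := genW_neg hW h
  rwa [neg_neg] at this

theorem Small.neg {m : ℕ} {η : Fin A.g → ℤ} (h : A.Small m η) : A.Small m (-η) := by
  obtain ⟨h1, h2, h3⟩ := h
  refine ⟨fun s => ?_, by rwa [size_neg], ?_⟩
  · have := h1 s
    rw [Pi.neg_apply]
    omega
  · rcases h3 with h | h
    · left
      rw [h, neg_zero]
    · exact Or.inr h.neg

theorem genCW_small {m n : ℕ} (hn : n < m) {z : Coh A.g 1} (hz : z ∈ A.R1 n) :
    A.GenCW (A.Small m) n z := by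
  refine ⟨hz, fun η T h _ hor => GenW.base _ ?_⟩
  obtain ⟨hη, -, hs⟩ := mem_idx.1 h
  exact ⟨hη, by omega, hor⟩

theorem genCW_add {n : ℕ} {z z' : Coh A.g 1} (hz : A.GenCW W n z) (hz' : A.GenCW W n z') :
    A.GenCW W n (z + z') := by
  refine ⟨(A.R1 n).add_mem hz.1 hz'.1, fun η T h hne hor => ?_⟩
  rw [co_add] at hne
  by_cases h1 : A.co z η T = 0
  · rw [h1, zero_add] at hne
    exact hz'.2 η T h hne hor
  · exact hz.2 η T h h1 hor

theorem genCW_mul {m n : ℕ} {z z' : Coh A.g 1} (hz : A.GenCW W m z) (hz' : A.GenCW W n z') :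
    A.GenCW W (m + n) (z * z') := by
  refine ⟨R1_mul hz.1 hz'.1, fun ζ V h hne hor => ?_⟩
  obtain ⟨hζ, hV, -⟩ := mem_idx.1 h
  obtain ⟨c, hc⟩ := rep (R1_gr hz.1)
  obtain ⟨d, hd⟩ := rep (R1_gr hz'.1)
  have hζ' : ∀ s, (-ζ) s = -1 ∨ (-ζ) s = 0 ∨ (-ζ) s = 1 := by
    intro s
    have := hζ s
    simp only [Pi.neg_apply]
    omega
  have h1 : A.co (z * z') ζ V = ∑ p ∈ idx A.g (2 * m), ∑ q ∈ idx A.g (2 * n),
      c p * d q * A.int (mo p.1 p.2 * mo q.1 q.2 * mo (-ζ) (zer ζ \ V)) := by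
    rw [co]
    conv_lhs => rw [hc, hd]
    rw [sum_mul_sum, sum_mul, map_sum]
    refine sum_congr rfl fun p _ => ?_
    rw [sum_mul, map_sum]
    refine sum_congr rfl fun q _ => ?_
    rw [smul_mul_smul_comm, smul_mul_assoc, map_smul, smul_eq_mul]
  rw [h1] at hne
  obtain ⟨⟨η, T⟩, hp, hne⟩ := exists_ne_zero_of_sum_ne_zero hne
  obtain ⟨⟨θ, T'⟩, hq, hne⟩ := exists_ne_zero_of_sum_ne_zero hne
  obtain ⟨hη, hT, -⟩ := mem_idx.1 hp
  obtain ⟨hθ, hT', -⟩ := mem_idx.1 hq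
  have hcp : c (η, T) ≠ 0 := left_ne_zero_of_mul (left_ne_zero_of_mul hne)
  have hdq : d (θ, T') ≠ 0 := right_ne_zero_of_mul (left_ne_zero_of_mul hne)
  have hsum : η + θ + -ζ = 0 := by
    by_contra hcon
    apply right_ne_zero_of_mul hne
    exact int_mul3_ne hη hθ hζ' hT hT' (fun s hs => by
      have := (mem_filter.1 (mem_sdiff.1 hs).1).2
      simp [this]) hcon
  have hζe : ζ = η + θ := by
    rw [← sub_eq_add_neg, sub_eq_zero] at hsum
    exact hsum.symm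
  subst hζe
  have hP1 := P_of_rep hz.1 hc hp
  have hP2 := P_of_rep hz'.1 hd hq
  have h2 := nonNull_factor hη hθ hζ hP1 hcp hP2 hdq hor
  have h3 : θ = 0 ∨ A.NonNull θ := by
    rw [add_comm η θ] at hor
    exact nonNull_factor hθ hη (fun s => by have := hζ s; rw [Pi.add_apply] at this; omega)
      hP2 hdq hP1 hcp hor
  have g1 := hz.2 η T hp (fun h => hcp ((A.co_eq_zero hc hp).1 h)) h2
  have g2 := hz'.2 θ T' hq (fun h => hdq ((A.co_eq_zero hd hq).1 h)) h3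
  exact GenW.add η θ g1 g2 fun s => by
    have := hζ s
    rw [Pi.add_apply] at this
    rw [abs_le]
    omega

theorem genCW_comp {n : ℕ} {y : Coh A.g 1} {h : ℕ → Coh A.g 1} (hy : A.GenCW W n y)
    (hsum : y = ∑ i ∈ range (n + 1), pol A.g ^ i * h i)
    (hR : ∀ i ≤ n, h i ∈ A.R1 (n - i))
    (hprim : ∀ i ≤ n, pol A.g ^ (A.g - 2 * (n - i) + 1) * h i = 0)
    (hzero : ∀ i ≤ n, A.g + i < 2 * n → h i = 0) {i : ℕ} (hi : i ≤ n) :
    A.GenCW W (n - i) (h i) := by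
  refine ⟨hR i hi, fun η T hT hne hor => ?_⟩
  obtain ⟨hη, -, -⟩ := mem_idx.1 hT
  by_contra hgen
  apply hne
  refine A.wt_dec (R1_gr hy.1) hsum (fun i hi => R1_gr (hR i hi)) hprim hzero hη ?_ (n - i) i hi
    rfl T hT
  intro T' hT'
  by_contra hcon
  exact hgen (hy.2 η T' hT' hcon hor)

/-- a class of the two weights `η` and `-η` is orthogonal to the classes for which the coefficients
of these weights vanish -/
theorem orth {n : ℕ} {η : Fin A.g → ℤ}
    (hη : ∀ s, η s = -1 ∨ η s = 0 ∨ η s = 1) (hs : size η = 2 * n) (a a' : ℂ) {w : Coh A.g 1}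
    (hw : w ∈ A.R1 n) (e1 : A.co w η ∅ = 0) (e2 : A.co w (-η) ∅ = 0) :
    A.int ((a • mo η ∅ + a' • mo (-η) ∅) * w * pol A.g ^ (A.g - 2 * n)) = 0 := by
  have key : ∀ θ : Fin A.g → ℤ, (∀ s, θ s = -1 ∨ θ s = 0 ∨ θ s = 1) → size θ = 2 * n →
      A.co w θ ∅ = 0 → A.int (pol A.g ^ (A.g - 2 * n) * w * mo (-θ) ∅) = 0 := by
    intro θ hθ hsz h0
    refine A.int_zero (R1_gr hw) hθ (by simp) fun T hT => ?_
    obtain ⟨-, -, hc⟩ := mem_idx.1 hT
    have hT0 : T = ∅ := by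
      rw [← Finset.card_eq_zero]
      omega
    rw [hT0]
    exact h0
  have hη' : ∀ s, (-η) s = -1 ∨ (-η) s = 0 ∨ (-η) s = 1 := by
    intro s
    have := hη s
    rw [Pi.neg_apply]
    omega
  have k1 := key η hη hs e1
  have k2 := key (-η) hη' (by rwa [size_neg]) e2
  rw [neg_neg] at k2
  have hcomm : ∀ θ : Fin A.g → ℤ, mo θ ∅ * w * pol A.g ^ (A.g - 2 * n) =
      pol A.g ^ (A.g - 2 * n) * w * mo θ ∅ := by
    intro θ
    rw [← A.g_pol_comm, mul_assoc]
    congr 1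
    exact (even_comm (R1_gr hw) (mo θ ∅)).symm
  rw [add_mul, add_mul, smul_mul_assoc, smul_mul_assoc, smul_mul_assoc, smul_mul_assoc, map_add,
    map_smul, map_smul, hcomm, hcomm, k1, k2, smul_zero, smul_zero, add_zero]

end CMAb

end Pc0b458V
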