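import Pool.Agent.Lib.Pc0b458I.Dens

/-!
# Weights which are not sums of smaller weights

`good_of_indec`: let `η` be an algebraic weight of size `2 n` and `Q` a set of classes for which the
coefficients of the weights `η` and `-η` vanish. If the form is positive semidefinite on the primitive
classes of codimension `n` which are orthogonal to `Q`, then `η` has the right sign. The real classes
of weights `η` and `-η` are primitive and orthogonal to `Q`; they are combinations of rational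
classes with independent coefficients, and these rational classes have the same properties.
-/

open Finset ComplexConjugate

namespace Pc0b458V

namespace CMAb

variable {A : CMAb}

theorem alg_zero (i : ℕ) : (0 : Coh A.g 1) ∈ A.alg i :=
  ⟨_, pol_pow_mem_eff i, _, pol_pow_mem_eff i, (sub_self _).symm⟩

theorem alg_add {i : ℕ} {x y : Coh A.g 1} (hx : x ∈ A.alg i) (hy : y ∈ A.alg i) :
    x + y ∈ A.alg i := by
  obtain ⟨a, ha, b, hb, rfl⟩ := hx
  obtain ⟨c, hc, d, hd, rfl⟩ := hy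
  exact ⟨a + c, A.add_mem i _ ha _ hc, b + d, A.add_mem i _ hb _ hd, by abel⟩

theorem alg_smul {i : ℕ} (q : ℚ) {x : Coh A.g 1} (hx : x ∈ A.alg i) :
    (q : ℂ) • x ∈ A.alg i := by
  obtain ⟨a, ha, b, hb, rfl⟩ := hx
  rcases le_total 0 q with h | h
  · exact ⟨_, A.smul_mem i q h a ha, _, A.smul_mem i q h b hb, smul_sub _ _ _⟩
  · refine ⟨_, A.smul_mem i (-q) (by linarith) b hb, _, A.smul_mem i (-q) (by linarith) a ha, ?_⟩
    push_cast
    module

theorem alg_mul {i j : ℕ} {x y : Coh A.g 1} (hx : x ∈ A.alg i) (hy : y ∈ A.alg j) :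
    x * y ∈ A.alg (i + j) := by
  obtain ⟨a, ha, b, hb, rfl⟩ := hx
  obtain ⟨c, hc, d, hd, rfl⟩ := hy
  refine ⟨a * c + b * d, A.add_mem _ _ (A.mul_mem i j _ ha _ hc) _ (A.mul_mem i j _ hb _ hd),
    a * d + b * c, A.add_mem _ _ (A.mul_mem i j _ ha _ hd) _ (A.mul_mem i j _ hb _ hc), ?_⟩
  noncomm_ring

theorem alg_pol (k : ℕ) : pol A.g ^ k ∈ A.alg k := by
  refine ⟨_, pol_pow_mem_eff k, 0, ?_, (sub_zero _).symm⟩
  have := A.smul_mem k 0 le_rfl _ (pol_pow_mem_eff k)
  simpa using this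

theorem int_alg {x : Coh A.g 1} (hx : x ∈ A.alg A.g) : ∃ q : ℚ, A.int x = q := by
  obtain ⟨a, ha, b, hb, rfl⟩ := hx
  obtain ⟨r, -, hr⟩ := A.int_eff a ha
  obtain ⟨s, -, hs⟩ := A.int_eff b hb
  exact ⟨r - s, by rw [map_sub, hr, hs]; push_cast; rfl⟩

theorem R1_span {i : ℕ} {z : Coh A.g 1} (hz : z ∈ A.R1 i) : z ∈ Submodule.span ℝ (A.alg i) := by
  refine (Submodule.span_mono ?_ : A.R1 i ≤ _) hz
  intro x hx
  refine ⟨x, hx, 0, ?_, (sub_zero _).symm⟩
  have := A.smul_mem i 0 le_rfl _ hx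
  simpa using this

theorem real_smul (r : ℝ) (x : Coh A.g 1) : r • x = (r : ℂ) • x := rfl

/-- the class of the two weights `η` and `-η` is primitive -/
theorem pair_prim {n j : ℕ} (k : ℕ) {η : Fin A.g → ℤ} (hη : ∀ s, η s = -1 ∨ η s = 0 ∨ η s = 1)
    (hs : size η = 2 * n) (hj : j < n) (a a' : ℂ) {w : Coh A.g 1} (hw : w ∈ A.alg j) :
    A.int (pol A.g ^ k * (a • mo η ∅ + a' • mo (-η) ∅) * w) = 0 := by
  have hη' : ∀ s, (-η) s = -1 ∨ (-η) s = 0 ∨ (-η) s = 1 := weight_neg_aux hη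
  have hR := R1_gr (alg_R1 hw)
  have key : ∀ θ : Fin A.g → ℤ, (∀ s, θ s = -1 ∨ θ s = 0 ∨ θ s = 1) → size θ = 2 * n →
      A.int (pol A.g ^ k * w * mo (-θ) ∅) = 0 := by
    intro θ hθ hsz
    refine A.int_zero hR hθ (by simp) fun T hT => ?_
    obtain ⟨-, -, hc⟩ := mem_idx.1 hT
    omega
  have k1 := key η hη hs
  have k2 := key (-η) hη' (by rwa [size_neg])
  rw [neg_neg] at k2
  have hc : ∀ θ : Fin A.g → ℤ, pol A.g ^ k * mo θ ∅ * w = pol A.g ^ k * w * mo θ ∅ := by
    intro θ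
    rw [mul_assoc, mul_assoc]
    congr 1
    exact (even_comm hR _).symm
  rw [mul_add, add_mul, mul_smul_comm, mul_smul_comm, smul_mul_assoc, smul_mul_assoc, map_add,
    map_smul, map_smul, hc, hc, k1, k2, smul_zero, smul_zero, add_zero]

/-- the form on the classes of the two weights `η` and `-η` -/
theorem pair_form {n : ℕ} (hn : 2 * n ≤ A.g) {η : Fin A.g → ℤ}
    (hη : ∀ s, η s = -1 ∨ η s = 0 ∨ η s = 1) (h0 : η ≠ 0) (hs : size η = 2 * n) (a a' : ℂ) :
    A.int ((a • mo η ∅ + a' • mo (-η) ∅) * (a • mo η ∅ + a' • mo (-η) ∅) *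
      pol A.g ^ (A.g - 2 * n)) =
      2 * (a * a') * (((A.g - 2 * n).factorial : ℂ) * ((-1 : ℂ) ^ n * (sg η : ℂ) * A.top)) := by
  have h1 : (-η) ≠ 0 := fun h => h0 (by simpa using h)
  have e1 : mo (-η) ∅ * mo η ∅ = mo η ∅ * mo (-η) ∅ := by
    have h5 : mo (-η) ∅ ∈ gr A.g 1 (2 * n) := by
      apply mo_mem
      rw [mem_idx]
      exact ⟨weight_neg_aux hη, by simp, by rw [size_neg]; simp [hs]⟩
    exact even_comm h5 _
  have e2 : (a • mo η ∅ + a' • mo (-η) ∅) * (a • mo η ∅ + a' • mo (-η) ∅) =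
      (2 * (a * a')) • (mo η ∅ * mo (-η) ∅) := by
    rw [add_mul, mul_add, mul_add]
    simp only [smul_mul_smul_comm]
    rw [mo_mul_self hη h0, mo_mul_self (weight_neg_aux hη) h1, e1]
    module
  rw [e2, smul_mul_assoc, map_smul, smul_eq_mul, g_int_mul_pol_pow,
    A.g_sum_W hη hs (by simp) (by simp) (by simp; omega), if_pos (Finset.disjoint_empty_left _)]

theorem good_of_indec {n : ℕ} (hn : 2 * n ≤ A.g) {η : Fin A.g → ℤ}
    (hη : ∀ s, η s = -1 ∨ η s = 0 ∨ η s = 1) (h0 : η ≠ 0) (hs : size η = 2 * n)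
    (hN : A.NonNull η) (Q : Coh A.g 1 → Prop)
    (hQ : ∀ w ∈ A.alg n, Q w → A.co w η ∅ = 0 ∧ A.co w (-η) ∅ = 0)
    (H : ∀ y, A.Prim n y → (∀ w ∈ A.alg n, Q w →
        A.int (y * w * pol A.g ^ (A.g - 2 * n)) = 0) →
      ∃ r : ℝ, 0 ≤ r ∧ (-1) ^ n * A.int (y * y * pol A.g ^ (A.g - 2 * n)) = r) : A.Good η := by
  obtain ⟨a, a', hP, ha⟩ := id hN
  obtain ⟨k, hk, hz⟩ := id hP
  have hkn : k = n := by omega
  subst hkn
  set z := a • mo η ∅ + a' • mo (-η) ∅ with hzdef
  obtain ⟨d, b, y, hb, hy, hzy⟩ := exists_indep (A.alg k) (alg_zero k)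
    (fun x hx x' hx' => alg_add hx hx') (fun q x hx => by
      have := alg_smul q hx
      rw [real_smul]
      push_cast
      exact this) (R1_span hz)
  -- rational functionals
  have rat : ∀ F : Coh A.g 1 →ₗ[ℂ] ℂ, (∀ x ∈ A.alg k, ∃ q : ℚ, F x = q) → F z = 0 →
      ∀ i, F (y i) = 0 := by
    intro F hF hFz
    choose q hq using fun i => hF (y i) (hy i)
    have e : ((∑ i, b i * (q i : ℝ) : ℝ) : ℂ) = 0 := by
      rw [← hFz, hzy, map_sum]
      push_cast
      refine Finset.sum_congr rfl fun i _ => ?_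
      rw [real_smul, map_smul, hq, smul_eq_mul]
    have e' : ∑ i, b i * (q i : ℝ) = 0 := by exact_mod_cast e
    intro i
    rw [hq, indep_zero hb e' i]
    simp
  have hprim : ∀ i, A.Prim k (y i) := by
    intro i
    refine ⟨hy i, fun j hj w hw => ?_⟩
    refine rat (A.int ∘ₗ LinearMap.mulRight ℂ w ∘ₗ
      LinearMap.mulLeft ℂ (pol A.g ^ (A.g - 2 * k + 1))) ?_ ?_ i
    · intro x hx
      have h3 := alg_mul (alg_mul (alg_pol (A := A) (A.g - 2 * k + 1)) hx) hw
      have e : A.g - 2 * k + 1 + k + j = A.g := by omega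
      rw [e] at h3
      exact int_alg h3
    · exact pair_prim _ hη hs (by omega) a a' hw
  have horth : ∀ i, ∀ w ∈ A.alg k, Q w →
      A.int (y i * w * pol A.g ^ (A.g - 2 * k)) = 0 := by
    intro i w hw hG
    refine rat (A.int ∘ₗ LinearMap.mulRight ℂ (pol A.g ^ (A.g - 2 * k)) ∘ₗ
      LinearMap.mulRight ℂ w) ?_ ?_ i
    · intro x hx
      have h3 := alg_mul (alg_mul hx hw) (alg_pol (A := A) (A.g - 2 * k))
      have e : k + k + (A.g - 2 * k) = A.g := by omega
      rw [e] at h3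
      exact int_alg h3
    · exact orth hη hs a a' (alg_R1 hw) (hQ w hw hG).1 (hQ w hw hG).2
  -- the form
  choose q hq using fun i j => int_alg (A := A) (x := y i * y j * pol A.g ^ (A.g - 2 * k)) (by
    have h3 := alg_mul (alg_mul (hy i) (hy j)) (alg_pol (A := A) (A.g - 2 * k))
    have e : k + k + (A.g - 2 * k) = A.g := by omega
    rw [e] at h3
    exact h3)
  have form : ∀ t : Fin d → ℂ, A.int ((∑ i, t i • y i) * (∑ i, t i • y i) *
      pol A.g ^ (A.g - 2 * k)) = ∑ i, ∑ j, t i * t j * (q i j : ℂ) := by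
    intro t
    rw [Finset.sum_mul_sum, Finset.sum_mul, map_sum]
    refine Finset.sum_congr rfl fun i _ => ?_
    rw [Finset.sum_mul, map_sum]
    refine Finset.sum_congr rfl fun j _ => ?_
    rw [smul_mul_smul_comm, smul_mul_assoc, map_smul, smul_eq_mul, hq]
  have hquad := quad_nonneg (fun i j => (-1) ^ k * (q i j : ℝ)) (fun t => by
    have hmem : ∀ s : Finset (Fin d), ∑ i ∈ s, ((t i : ℚ) : ℂ) • y i ∈ A.alg k := by
      intro s
      induction s using Finset.induction_on with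
      | empty => simpa using alg_zero k
      | insert c s hc ih =>
        rw [Finset.sum_insert hc]
        exact alg_add (alg_smul _ (hy c)) ih
    obtain ⟨r, hr, hr'⟩ := H (∑ i, ((t i : ℚ) : ℂ) • y i) ⟨hmem univ, fun j hj w hw => by
        rw [Finset.mul_sum, Finset.sum_mul, map_sum]
        refine Finset.sum_eq_zero fun i _ => ?_
        rw [mul_smul_comm, smul_mul_assoc, map_smul, (hprim i).2 j hj w hw, smul_zero]⟩
      (fun w hw hG => by
        rw [Finset.sum_mul, Finset.sum_mul, map_sum]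
        refine Finset.sum_eq_zero fun i _ => ?_
        rw [smul_mul_assoc, smul_mul_assoc, map_smul, horth i w hw hG, smul_zero])
    rw [form] at hr'
    have e : ∑ i, ∑ j, (t i : ℝ) * (t j : ℝ) * ((-1) ^ k * (q i j : ℝ)) = r := by
      apply Complex.ofReal_injective
      rw [← hr', Finset.mul_sum]
      push_cast
      refine Finset.sum_congr rfl fun i _ => ?_
      rw [Finset.mul_sum]
      refine Finset.sum_congr rfl fun j _ => ?_
      ring
    rw [e]
    exact hr) b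
  set R := ∑ i, ∑ j, b i * b j * ((-1) ^ k * (q i j : ℝ)) with hR
  have hzz : (-1 : ℂ) ^ k * A.int (z * z * pol A.g ^ (A.g - 2 * k)) = (R : ℂ) := by
    have e : z = ∑ i, ((b i : ℝ) : ℂ) • y i := hzy
    rw [e, form, hR, Finset.mul_sum]
    push_cast
    refine Finset.sum_congr rfl fun i _ => ?_
    rw [Finset.mul_sum]
    refine Finset.sum_congr rfl fun j _ => ?_
    ring
  rw [hzdef, pair_form hn hη h0 hs a a'] at hzz
  obtain ⟨t, ht, ht'⟩ := A.top_pos
  have ht'' : A.top = t := ht'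
  rw [ht''] at hzz
  have hp : ((-1 : ℂ) ^ k) * ((-1 : ℂ) ^ k) = 1 := by
    rw [← mul_pow]; simp
  set c : ℝ := 2 * ((A.g - 2 * k).factorial : ℝ) * t with hc
  have hcpos : 0 < c := by
    have : (0 : ℝ) < ((A.g - 2 * k).factorial : ℝ) := by exact_mod_cast Nat.factorial_pos _
    positivity
  have e3 : (c : ℂ) * ((sg η : ℂ) * a * a') = R := by
    rw [← hzz, hc]
    push_cast
    linear_combination (-(2 * ((A.g - 2 * k).factorial : ℂ) * t * ((sg η : ℂ) * a * a'))) * hp
  have hc0 : (c : ℂ) ≠ 0 := by exact_mod_cast hcpos.ne'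
  have e4 : (sg η : ℂ) * a * a' = ((R / c : ℝ) : ℂ) := by
    push_cast
    rw [← e3]
    field_simp
  refine ⟨a, a', hP, R / c, ?_, e4⟩
  refine lt_of_le_of_ne (div_nonneg hquad hcpos.le) ?_
  intro h
  rw [← h, Complex.ofReal_zero, mul_assoc] at e4
  rcases mul_eq_zero.1 e4 with h | h
  · exact sg_ne hη h
  · exact ha h

end CMAb

end Pc0b458V
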