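import Pool.Agent.Lib.Pc0b458I.Stmt
import Pool.Agent.Lib.Pc0b458I.Emb
import Pool.Agent.Lib.Pc0b458G.Main

/-!
# Positivity and indecomposable classes
-/

universe u v

namespace Pc0b458I

open Pc0b458Z Pc0b458G

section Sp

variable {Y : NumAb.{u}} {A : CMAb} (S : Specialisation Y A)

include S

theorem sp_form {n : ℕ} (hn : 2 * n ≤ Y.g) {x w : Y.Z} {y w' : Coh A.g 1} (hy : S.sp n x y)
    (hw : S.sp n w w') :
    A.int (y * w' * pol A.g ^ (A.g - 2 * n)) = Y.deg (x * w * Y.L ^ (Y.g - 2 * n)) := by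
  have h1 := S.mul _ _ _ _ _ _ (S.mul _ _ _ _ _ _ hy hw) (sp_pow S (Y.g - 2 * n))
  have e : n + n + (Y.g - 2 * n) = Y.g := by omega
  rw [e] at h1
  have h2 := S.deg _ _ h1
  rw [S.dim] at h2
  rw [S.dim]
  exact h2

/-- positivity follows from the signs of the algebraic weights -/
theorem positive_of_good {n : ℕ} (hn : 2 * n ≤ Y.g)
    (hgood : ∀ η : Fin A.g → ℤ, (∀ s, η s = -1 ∨ η s = 0 ∨ η s = 1) → η ≠ 0 →
      Pc0b458V.size η ≤ 2 * n → A.toV.NonNull η → A.toV.Good η) : Y.Positive n := by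
  apply Y.positive_of_psd hn
  intro x hmem hL
  have hlef : Lef Y n x (fun i => if i = 0 then x else 0) := by
    refine ⟨?_, ?_, ?_, ?_⟩
    · rw [Finset.sum_eq_single 0]
      · simp
      · intro i _ hi
        simp [hi]
      · intro h
        exact absurd (Finset.mem_range.2 (by omega)) h
    · intro i hi
      by_cases h : i = 0
      · subst h
        simpa using hmem
      · simp only [h, if_false]
        exact zero_mem_cod hn hmem (by omega)
    · intro i hi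
      by_cases h : i = 0
      · subst h
        simpa using hL
      · simp [h]
    · intro i hi hlt
      by_cases h : i = 0
      · omega
      · simp [h]
  obtain ⟨y, hy⟩ := S.ex n x hmem
  obtain ⟨k, hk, hk'⟩ := S.lef n x y _ hy hlef
  have hz : S.sp n x (k 0) := by
    have := hk' 0 (Nat.zero_le n)
    simpa using this
  have hprim : pol A.g ^ (A.g - 2 * n + 1) * k 0 = 0 := by
    have := hk.prim 0 (Nat.zero_le n)
    simpa using this
  have hP : A.Prim n (k 0) := by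
    refine ⟨S.alg _ _ _ hz, fun j _ w _ => ?_⟩
    rw [hprim, zero_mul, A.int_zero]
  have hn' : 2 * n ≤ A.g := S.dim ▸ hn
  obtain ⟨r, hr, hr'⟩ := Pc0b458V.CMAb.psd (A := A.toV) hn' hgood (x := k 0) hP
  have h1 := sp_form S hn hz hz
  have hr2 : (-1) ^ n * A.int (k 0 * k 0 * pol A.g ^ (A.g - 2 * n)) = r := hr'
  rw [h1] at hr2
  have h2 : ((((-1) ^ n * Y.deg (x * x * Y.L ^ (Y.g - 2 * n)) : ℚ) : ℝ) : ℂ) = (r : ℂ) := by
    rw [← hr2]
    push_cast
    rfl
  have h3 : (((-1) ^ n * Y.deg (x * x * Y.L ^ (Y.g - 2 * n)) : ℚ) : ℝ) = r :=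
    Complex.ofReal_injective h2
  have h4 : (0 : ℝ) ≤ (((-1) ^ n * Y.deg (x * x * Y.L ^ (Y.g - 2 * n)) : ℚ) : ℝ) := h3 ▸ hr
  exact_mod_cast h4

theorem genLt_sp {m n : ℕ} {x : Y.Z} (h : GenLt Y m n x) :
    ∃ y, S.sp n x y ∧ A.toV.GenCW (A.toV.Small m) n y := by
  induction h with
  | base hn hx =>
    obtain ⟨y, hy⟩ := S.ex _ _ hx
    exact ⟨y, hy, Pc0b458V.CMAb.genCW_small hn
      (Pc0b458V.CMAb.alg_R1 (A := A.toV) (S.alg _ _ _ hy))⟩
  | add _ _ h1 h2 =>
    obtain ⟨y, hy, hy'⟩ := h1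
    obtain ⟨z, hz, hz'⟩ := h2
    exact ⟨y + z, S.add _ _ _ _ _ hy hz, Pc0b458V.CMAb.genCW_add hy' hz'⟩
  | mul _ _ h1 h2 =>
    obtain ⟨y, hy, hy'⟩ := h1
    obtain ⟨z, hz, hz'⟩ := h2
    exact ⟨y * z, S.mul _ _ _ _ _ _ hy hz, Pc0b458V.CMAb.genCW_mul hy' hz'⟩
  | comp _ h hi h1 =>
    obtain ⟨y, hy, hy'⟩ := h1
    obtain ⟨k, hk, hk'⟩ := S.lef _ _ _ _ hy h
    exact ⟨k _, hk' _ hi, Pc0b458V.CMAb.genCW_comp hy' hk.sum (fun i hi =>
      Pc0b458V.CMAb.alg_R1 (A := A.toV) (S.alg _ _ _ (hk' i hi))) hk.prim hk.zero hi⟩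

end Sp

theorem sp_num {Y : NumAb.{u}} {A : CMAb} (S : Model Y A) {n j : ℕ} (hj : n + j = A.g) {x : Y.Z}
    {y y' : Coh A.g 1} (hy : S.sp n x y) (hy' : S.sp n x y') {u : Coh A.g 1} (hu : u ∈ A.alg j) :
    A.int (y * u) = A.int (y' * u) := by
  obtain ⟨v, -, hv⟩ := S.surj j u hu
  have h1 := S.mul _ _ _ _ _ _ hy hv
  have h2 := S.mul _ _ _ _ _ _ hy' hv
  rw [hj] at h1 h2
  have h3 : S.sp Y.g (x * v) (y * u) := by rw [S.dim]; exact h1
  have h4 : S.sp Y.g (x * v) (y' * u) := by rw [S.dim]; exact h2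
  rw [S.deg _ _ h3, S.deg _ _ h4]

theorem prCoh_eq {g g' : ℕ} (e : Fin g ↪o Fin g') (y : Coh g 1) :
    prCoh e y = Pc0b458V.prV e y := rfl

theorem prV_mem {X Y : NumAb.{u}} {A A' : CMAb} {S : Model X A} {S' : Model Y A'}
    (P : CMProduct S S') (i : ℕ) (x : Coh A.g 1) (hx : x ∈ A.toV.alg i) :
    Pc0b458V.prV P.e x ∈ A'.toV.R1 i := by
  obtain ⟨x', -, hx'⟩ := S.surj i x hx
  exact Pc0b458V.CMAb.alg_R1 (A := A'.toV) (S'.alg _ _ _ (P.comp _ _ _ hx'))

theorem prim_of_coh {X : NumAb.{u}} {A : CMAb} (S : Specialisation X A) {n : ℕ} (hn : 2 * n ≤ X.g)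
    {x : X.Z} (hx : x ∈ X.cod n) {y : Coh A.g 1} (hy : S.sp n x y)
    (hP : A.Prim n y) : X.L ^ (X.g - 2 * n + 1) * x = 0 := by
  apply X.num (X.g - 2 * n + 1 + n) _ (X.L_mul_mem hx)
  intro j hj z hz
  obtain ⟨z', hz'⟩ := S.ex j z hz
  have h1 := S.mul _ _ _ _ _ _ (S.mul _ _ _ _ _ _ (sp_pow S (X.g - 2 * n + 1)) hy) hz'
  rw [hj] at h1
  have h2 := S.deg _ _ h1
  have h3 := hP.2 j (by omega) z' (S.alg _ _ _ hz')
  rw [S.dim] at h2
  have h4 : X.deg (X.L ^ (A.g - 2 * n + 1) * x * z) = 0 := by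
    have : ((X.deg (X.L ^ (A.g - 2 * n + 1) * x * z) : ℚ) : ℂ) = 0 := by
      rw [← h2, h3]
    exact_mod_cast this
  rw [S.dim]
  exact h4

variable (F : Family.{u, v})

theorem good_all {N : ℕ} (H : ∀ (i : F.I) (n : ℕ), 3 ≤ n → n ≤ N → 2 * n ≤ (F.X i).g →
      ∀ x, F.Indec i n x →
        0 ≤ (-1) ^ n * (F.X i).deg (x * x * (F.X i).L ^ ((F.X i).g - 2 * n))) :
    ∀ k, k ≤ N → ∀ (i : F.I) (η : Fin (F.A i).g → ℤ), (∀ s, η s = -1 ∨ η s = 0 ∨ η s = 1) →
      η ≠ 0 → Pc0b458V.size η = 2 * k → (F.A i).toV.NonNull η → (F.A i).toV.Good η := by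
  intro k
  induction k using Nat.strong_induction_on with
  | _ k ih =>
    intro hkN i η hη h0 hs hN
    by_cases hk2 : k ≤ 2
    · have h4 : Pc0b458V.size η ≤ 4 := by omega
      exact (F.A i).toV.base hη h0 h4 hN
    have hcard := Pc0b458V.card_zer hη
    have hn : 2 * k ≤ (F.A i).g := by omega
    have hsmall : ∀ (j : F.I) (ζ : Fin (F.A j).g → ℤ), (F.A j).toV.Small k ζ →
        (∀ s, ζ s = -1 ∨ ζ s = 0 ∨ ζ s = 1) ∧ (F.A j).toV.Good ζ := by
      intro j ζ hζ
      obtain ⟨h1, h2, h3⟩ := hζ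
      refine ⟨h1, ?_⟩
      by_cases hζ0 : ζ = 0
      · rw [hζ0]
        exact Pc0b458V.CMAb.good_zero
      · have hNζ := h3.resolve_left hζ0
        obtain ⟨a, a', ⟨l, hl, -⟩, -⟩ := id hNζ
        exact ih l (by omega) (by omega) j ζ h1 hζ0 hl hNζ
    by_cases hex : ∃ (j : F.I) (P : CMProduct (F.S i) (F.S j)),
        (F.A j).toV.GenW ((F.A j).toV.Small k) (Pc0b458V.ext P.e η)
    · obtain ⟨j, P, hG⟩ := hex
      have h1 := (Pc0b458V.CMAb.genW_good (hsmall j) hG).2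
      exact Pc0b458V.CMAb.good_ext (A := (F.A i).toV) (A' := (F.A j).toV) P.e
        (fun i x hx => prV_mem P i x hx) hη h0 hN h1
    · refine Pc0b458V.CMAb.good_of_indec (A := (F.A i).toV) hn hη h0 hs hN
        (fun w => ∃ (j : F.I) (P : CMProduct (F.S i) (F.S j)),
          (F.A j).toV.GenCW ((F.A j).toV.Small k) k (Pc0b458V.prV P.e w)) ?_ ?_
      · rintro w hw ⟨j, P, hG⟩
        have hη' := Pc0b458V.weight_neg_aux hη
        have hR := Pc0b458V.CMAb.alg_R1 (A := (F.A i).toV) hw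
        have hT : (η, (∅ : Finset (Fin (F.A i).g))) ∈ Pc0b458V.idx (F.A i).g (2 * k) :=
          Pc0b458V.mem_idx.2 ⟨hη, by simp, by simpa using hs⟩
        have hT' : (-η, (∅ : Finset (Fin (F.A i).g))) ∈ Pc0b458V.idx (F.A i).g (2 * k) :=
          Pc0b458V.mem_idx.2 ⟨hη', by simp, by rw [Pc0b458V.size_neg]; simpa using hs⟩
        have hNe := Pc0b458V.CMAb.nonNull_ext (A := (F.A i).toV) (A' := (F.A j).toV) P.e
          (fun i x hx => prV_mem P i x hx) hN
        constructor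
        · by_contra hne
          have h1 := Pc0b458V.CMAb.co_ext (A := (F.A i).toV) (A' := (F.A j).toV) P.e hR hT hne
          exact hex ⟨j, P, hG.2 _ _ (Pc0b458V.mem_idx_ext P.e hT) h1 (Or.inr hNe)⟩
        · by_contra hne
          have h1 := Pc0b458V.CMAb.co_ext (A := (F.A i).toV) (A' := (F.A j).toV) P.e hR hT' hne
          have h2 := hG.2 _ _ (Pc0b458V.mem_idx_ext P.e hT') h1
            (Or.inr (by rw [Pc0b458V.ext_neg]; exact hNe.neg))
          rw [Pc0b458V.ext_neg] at h2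
          exact hex ⟨j, P, Pc0b458V.CMAb.genW_of_neg (fun ζ hζ => hζ.neg) h2⟩
      · intro y hy horth
        set S := F.S i with hS
        have hnX : 2 * k ≤ (F.X i).g := by rw [S.dim]; exact hn
        obtain ⟨x, hx, hxy⟩ := S.surj k y hy.1
        have hL := prim_of_coh S.toSpecialisation hnX hx hxy hy
        have hI : F.Indec i k x := by
          refine ⟨hx, hL, ?_⟩
          rintro w hw ⟨j, P, hG⟩
          obtain ⟨w', hw'⟩ := S.ex k w hw
          obtain ⟨w'', hw'', hG''⟩ := genLt_sp (F.S j).toSpecialisation hG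
          have hdim : k ≤ (F.A j).g := by
            have h1 := P.dim
            have h2 := (F.S j).dim
            omega
          have hQ : (F.A j).toV.GenCW ((F.A j).toV.Small k) k (Pc0b458V.prV P.e w') := by
            refine Pc0b458V.CMAb.genCW_num (A := (F.A j).toV) (j := (F.A j).g - k) ?_ ?_ ?_ hG''
            · show k + ((F.A j).g - k) = (F.A j).g
              omega
            · exact prV_mem P k w' (S.alg _ _ _ hw')
            · intro u hu
              exact sp_num (F.S j) (by omega) (P.comp _ _ _ hw') hw'' hu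
          have h1 := horth w' (S.alg _ _ _ hw') ⟨j, P, hQ⟩
          have h2 := sp_form S.toSpecialisation hnX hxy hw'
          have h3 : (((F.X i).deg (x * w * (F.X i).L ^ ((F.X i).g - 2 * k)) : ℚ) : ℂ) = 0 := by
            rw [← h2]
            exact h1
          exact_mod_cast h3
        have h2 := sp_form S.toSpecialisation hnX hxy hxy
        refine ⟨(((-1) ^ k * (F.X i).deg (x * x * (F.X i).L ^ ((F.X i).g - 2 * k)) : ℚ) : ℝ),
          ?_, ?_⟩
        · have := H i k (by omega) hkN hnX x hI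
          exact_mod_cast this
        · have h3 : (F.A i).toV.int (y * y * Pc0b458V.pol (F.A i).toV.g ^
              ((F.A i).toV.g - 2 * k)) =
              ((F.X i).deg (x * x * (F.X i).L ^ ((F.X i).g - 2 * k)) : ℚ) := h2
          rw [h3]
          push_cast
          rfl

/-- the form is positive on all primitive classes if it is positive on the indecomposable classes -/
theorem main (N : ℕ) :
    (∀ (i : F.I) (Y : NumAb.{u}) (_ : Specialisation Y (F.A i)) (n : ℕ), n ≤ N → 2 * n ≤ Y.g →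
      Y.Positive n) ↔
    ∀ (i : F.I) (n : ℕ), 3 ≤ n → n ≤ N → 2 * n ≤ (F.X i).g → ∀ x, F.Indec i n x →
      0 ≤ (-1) ^ n * (F.X i).deg (x * x * (F.X i).L ^ ((F.X i).g - 2 * n)) := by
  constructor
  · intro h i n _ hnN hn x hx
    by_cases h0 : x = 0
    · rw [h0, zero_mul, zero_mul, (F.X i).deg_zero, mul_zero]
    · exact (h i (F.X i) (F.S i).toSpecialisation n hnN hn x hx.1 hx.2.1 h0).le
  · intro H i Y S n hnN hn
    refine positive_of_good S hn fun η hη h0 hs hN => ?_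
    obtain ⟨a, a', ⟨l, hl, -⟩, -⟩ := id hN
    have hl' : Pc0b458V.size η = 2 * l := hl
    exact good_all F H l (by omega) i η hη h0 hl' hN

end Pc0b458I
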