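import Pool.Agent.Lib.Pc0b458I.Indec

/-!
# Numerical equivalence does not change the coefficients
-/

open Finset ComplexConjugate

namespace Pc0b458V

namespace CMAb

variable {A : CMAb}

theorem int_R1_zero {j : ℕ} {z : Coh A.g 1} (h : ∀ u ∈ A.alg j, A.int (z * u) = 0)
    {v : Coh A.g 1} (hv : v ∈ A.R1 j) : A.int (z * v) = 0 := by
  have h1 : v ∈ Submodule.span ℝ (A.alg j) := R1_span hv
  clear hv
  induction h1 using Submodule.span_induction with
  | mem x hx => exact h x hx
  | zero => rw [mul_zero, map_zero]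
  | add x y _ _ hx hy => rw [mul_add, map_add, hx, hy, add_zero]
  | smul r x _ hx => rw [real_smul, mul_smul_comm, map_smul, hx, smul_zero]

/-- the coefficients of a class which is numerically trivial vanish, for the weights which carry a
class which is not isotropic -/
theorem co_num {n j : ℕ} (hj : n + j = A.g) {z : Coh A.g 1}
    (h : ∀ u ∈ A.alg j, A.int (z * u) = 0) {η : Fin A.g → ℤ} {T : Finset (Fin A.g)}
    (hT : (η, T) ∈ idx A.g (2 * n)) (hor : η = 0 ∨ A.NonNull η) : A.co z η T = 0 := by
  obtain ⟨hη, hT0, hs⟩ := mem_idx.1 hT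
  have hTz : T ⊆ zer η := fun s hs' => mem_filter.2 ⟨mem_univ _, hT0 s hs'⟩
  have hcard := card_zer hη
  have hle := card_le_card hTz
  have hU : ∀ s ∈ zer η \ T, (-η) s = 0 := by
    intro s hs'
    have := (mem_filter.1 (mem_sdiff.1 hs').1).2
    simp [this]
  have hUc : (zer η \ T).card = (zer η).card - T.card := card_sdiff_of_subset hTz
  have e0 : mo (-η) ∅ * dT (zer η \ T) = mo (-η) (zer η \ T) := by
    rw [mo_mul_dT hU (Finset.disjoint_empty_left _), Finset.empty_union]
  by_cases hη0 : η = 0
  · rw [co, ← e0, hη0, neg_zero]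
    have e1 : mo (0 : Fin A.g → ℤ) ∅ = 1 := dT_empty
    rw [e1, one_mul]
    apply int_R1_zero h
    have h2 : size η = 0 := by rw [hη0]; simp [size]
    have h3 : (zer η \ T).card = j := by omega
    have := dT_R1 (A := A) (zer η \ T)
    rw [h3] at this
    rwa [hη0] at this
  · obtain ⟨a, a', hP, ha⟩ := hor.resolve_left hη0
    have key : ∀ w : ℂ, w * a * A.int (z * (mo η ∅ * dT (zer η \ T))) +
        conj w * a' * A.int (z * (mo (-η) ∅ * dT (zer η \ T))) = 0 := by
      intro w
      obtain ⟨k, hk, hm⟩ := P_act hη hη0 hP w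
      have h2 := R1_mul hm (dT_R1 (A := A) (zer η \ T))
      have h3 : k + (zer η \ T).card = j := by omega
      rw [h3] at h2
      have h4 := int_R1_zero h h2
      rw [add_mul, smul_mul_assoc, smul_mul_assoc, mul_add, mul_smul_comm, mul_smul_comm, map_add,
        map_smul, map_smul, smul_eq_mul, smul_eq_mul] at h4
      exact h4
    have k1 := key 1
    have k2 := key Complex.I
    rw [map_one, one_mul, one_mul] at k1
    rw [Complex.conj_I] at k2
    have hI : Complex.I * Complex.I = -1 := Complex.I_mul_I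
    have k3 : 2 * (a' * A.int (z * (mo (-η) ∅ * dT (zer η \ T)))) = 0 := by
      linear_combination k1 + Complex.I * k2 -
        (a * A.int (z * (mo η ∅ * dT (zer η \ T))) -
          a' * A.int (z * (mo (-η) ∅ * dT (zer η \ T)))) * hI
    have k4 : a' * A.int (z * (mo (-η) ∅ * dT (zer η \ T))) = 0 := by
      rcases mul_eq_zero.1 k3 with h5 | h5
      · norm_num at h5
      · exact h5
    rw [co, ← e0]
    rcases mul_eq_zero.1 k4 with h5 | h5
    · exact absurd (by rw [h5, mul_zero]) ha
    · exact h5

/-- numerically equivalent classes have the same coefficients -/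
theorem genCW_num {W : (Fin A.g → ℤ) → Prop} {n j : ℕ} (hj : n + j = A.g) {z z' : Coh A.g 1}
    (hz : z ∈ A.R1 n) (h : ∀ u ∈ A.alg j, A.int (z * u) = A.int (z' * u))
    (hz' : A.GenCW W n z') : A.GenCW W n z := by
  refine ⟨hz, fun η T hT hne hor => hz'.2 η T hT ?_ hor⟩
  intro h0
  apply hne
  have h1 : A.co (z - z') η T = 0 := by
    refine co_num hj (fun u hu => ?_) hT hor
    rw [sub_mul, map_sub, h u hu, sub_self]
  have h2 : A.co (z - z') η T = A.co z η T - A.co z' η T := by
    rw [co, sub_mul, map_sub, co, co]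
  rw [h2, h0, sub_zero] at h1
  exact h1

end CMAb

end Pc0b458V
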