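import Pool.Agent.Lib.Pc0b458G.Stmt

/-!
# Indecomposable classes

The setting of `MP_c0b458_ag`. `Pc0b458Z.NumAb` and `Pc0b458Z.CMAb` (file
`Pool.Agent.Lib.Pc0b458V.Stmt`) are the ring of cycles modulo numerical equivalence on a polarised
abelian variety, and the classes of algebraic cycles in the cohomology ring of an abelian variety
with complex multiplication, over an algebraic closure of a finite field.
`Pc0b458G.Specialisation`, `Pc0b458G.Product` and `Pc0b458G.Lef` (file
`Pool.Agent.Lib.Pc0b458G.Stmt`) are specialisation of cycles, products of abelian varieties and
Lefschetz decompositions.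

A class of codimension `n` is decomposable if its pull-back to the product with some abelian variety
is obtained from classes of codimension less than `n` by sums, products and primitive components. A
primitive class is indecomposable if it is orthogonal to all decomposable classes.
-/

universe u v

namespace Pc0b458I

open Pc0b458Z Pc0b458G

/-- `X` is the abelian variety `A` itself: `sp n x y` says that some cycle with the numerical class
`x` has the cohomology class `y`. -/
structure Model (X : NumAb.{u}) (A : CMAb) extends Specialisation X A where
  surj : ∀ n, ∀ y ∈ A.alg n, ∃ x ∈ X.cod n, sp n x y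

/-- pull-back on the first cohomology under a projection: the coordinates of the CM algebra of the
product which belong to the factor are given by `e` -/
noncomputable def prOne {g g' : ℕ} (e : Fin g ↪o Fin g') :
    (Fin g × Bool × Fin 1 → ℂ) →ₗ[ℂ] (Fin g' × Bool × Fin 1 → ℂ) :=
  ∑ i : Fin g × Bool × Fin 1, (LinearMap.proj i).smulRight (Pi.single (e i.1, i.2) (1 : ℂ))

/-- pull-back of cohomology classes under the projection: it maps `gen s b 0` to `gen (e s) b 0` -/
noncomputable def prCoh {g g' : ℕ} (e : Fin g ↪o Fin g') (y : Coh g 1) : Coh g' 1 :=
  mapExt (prOne e) y

/-- `Y` is the product of `X` with an abelian variety with complex multiplication (for example a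
point), and the CM algebra of `Y` is the product of the CM algebras of the factors. -/
structure CMProduct {X Y : NumAb.{u}} {A A' : CMAb} (S : Model X A) (S' : Model Y A')
    extends Product X Y where
  /-- the coordinates of the CM algebra of `Y` which belong to `X` -/
  e : Fin A.g ↪o Fin A'.g
  comp : ∀ n x y, S.sp n x y → S'.sp n (pr x) (prCoh e y)

/-- The classes which are generated in codimension less than `m`: the smallest system of sets of
classes on `Y` which contains all classes of codimension less than `m` and which is closed under
sums, products and primitive components. -/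
inductive GenLt (Y : NumAb.{u}) (m : ℕ) : ℕ → Y.Z → Prop
  | base {n : ℕ} {x : Y.Z} (hn : n < m) (hx : x ∈ Y.cod n) : GenLt Y m n x
  | add {n : ℕ} {x y : Y.Z} (hx : GenLt Y m n x) (hy : GenLt Y m n y) : GenLt Y m n (x + y)
  | mul {k n : ℕ} {x y : Y.Z} (hx : GenLt Y m k x) (hy : GenLt Y m n y) :
      GenLt Y m (k + n) (x * y)
  | comp {n : ℕ} {x : Y.Z} {f : ℕ → Y.Z} (hx : GenLt Y m n x) (h : Lef Y n x f) {i : ℕ}
      (hi : i ≤ n) : GenLt Y m (n - i) (f i)

/-- a family of polarised abelian varieties with complex multiplication, for example all such
abelian varieties over the algebraic closures of the finite fields -/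
structure Family where
  I : Type v
  X : I → NumAb.{u}
  A : I → CMAb
  S : ∀ i, Model (X i) (A i)

/-- the class `w` of codimension `n` on `X i` is decomposable: its pull-back to a member of the
family which is the product of `X i` with an abelian variety is generated in codimension less than
`n` -/
def Family.Dec (F : Family.{u, v}) (i : F.I) (n : ℕ) (w : (F.X i).Z) : Prop :=
  ∃ (j : F.I) (P : CMProduct (F.S i) (F.S j)), GenLt (F.X j) n n (P.pr w)

/-- the class `x` of codimension `n` on `X i` is primitive, and it is orthogonal to all decomposable
classes -/
def Family.Indec (F : Family.{u, v}) (i : F.I) (n : ℕ) (x : (F.X i).Z) : Prop :=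
  x ∈ (F.X i).cod n ∧ (F.X i).L ^ ((F.X i).g - 2 * n + 1) * x = 0 ∧
    ∀ w ∈ (F.X i).cod n, F.Dec i n w →
      (F.X i).deg (x * w * (F.X i).L ^ ((F.X i).g - 2 * n)) = 0

end Pc0b458I
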